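import Pool.Agent.K1H59.VX.Stm3

/-!
The number of exceptional points of height at most `B`: dyadic summation over the shells.
-/

set_option autoImplicit false
set_option linter.unusedSectionVars false

namespace Pool.Agent.K1H52.VX

open MvPolynomial Finset
open Pool.Agent.K1H59.VX

lemma abs_le_height {n : ℕ} (x : Fin n → ℤ) (i : Fin n) : |(x i : ℝ)| ≤ height x := by
  have : (x i).natAbs ≤ height x :=
    Finset.le_sup (f := fun i => (x i).natAbs) (Finset.mem_univ i)
  have h2 : (((x i).natAbs : ℕ) : ℝ) ≤ (height x : ℝ) := by exact_mod_cast this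
  rw [Nat.cast_natAbs] at h2
  push_cast at h2
  exact h2

lemma exists_height {n : ℕ} (x : Fin (n + 1) → ℤ) : ∃ i, (height x : ℝ) ≤ |(x i : ℝ)| := by
  obtain ⟨i, _, hi⟩ := Finset.exists_mem_eq_sup Finset.univ ⟨0, Finset.mem_univ _⟩
    (fun i => (x i).natAbs)
  refine ⟨i, ?_⟩
  have h1 : (height x : ℝ) = (((x i).natAbs : ℕ) : ℝ) := by
    unfold height
    rw [hi]
  rw [h1, Nat.cast_natAbs]
  push_cast
  exact le_rfl

lemma one_le_height {n : ℕ} (x : Fin n → ℤ) (hx : Finset.univ.gcd x = 1) : 1 ≤ height x := by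
  rw [Nat.one_le_iff_ne_zero]
  intro h0
  have h2 : x = 0 := by
    funext i
    have h3 := abs_le_height x i
    rw [h0, Nat.cast_zero] at h3
    have h4 : (x i : ℝ) = 0 := abs_eq_zero.mp (le_antisymm h3 (abs_nonneg _))
    exact_mod_cast h4
  rw [h2] at hx
  have h5 : Finset.univ.gcd (0 : Fin n → ℤ) = 0 := by
    rw [Finset.gcd_eq_zero_iff]
    intro i _
    rfl
  rw [h5] at hx
  exact zero_ne_one hx

/-- the contributions of the places -/
lemma prox_le {S : Finset ℕ} (hS : ∀ p ∈ S, p.Prime) {H B : ℝ} (hH : 0 < H) (hHB : H ≤ B) (d : ℕ)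
    {a : ℤ} (ha : a ≠ 0) :
    Real.log (H ^ d / |(a : ℝ)|) + ∑ p ∈ S, (padicValInt p a : ℝ) * Real.log p ≤
      ∑ v ∈ insertNone S, -Real.log (nval v B d a) := by
  rw [Finset.sum_insertNone]
  have haR : (0 : ℝ) < |(a : ℝ)| := abs_pos.2 (by exact_mod_cast ha)
  have hB : 0 < B := lt_of_lt_of_le hH hHB
  apply add_le_add
  · show Real.log (H ^ d / |(a : ℝ)|) ≤ -Real.log (|(a : ℝ)| / B ^ d)
    rw [← Real.log_inv, inv_div]
    apply Real.log_le_log (by positivity)
    exact div_le_div_of_nonneg_right (pow_le_pow_left₀ hH.le hHB d) haR.le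
  · apply Finset.sum_le_sum
    intro p hp
    have hpp := hS p hp
    have : Fact p.Prime := ⟨hpp⟩
    show (padicValInt p a : ℝ) * Real.log p ≤ -Real.log ((padicNorm p (a : ℚ) : ℚ) : ℝ)
    have haQ : (a : ℚ) ≠ 0 := by exact_mod_cast ha
    rw [padicNorm.eq_zpow_of_nonzero haQ, padicValRat.of_int]
    push_cast
    rw [Real.log_zpow]
    push_cast
    linarith

theorem t_FINAL (h : S_SHELL) : S_FINAL := by
  classical
  intro m q F d hm hF S hS κ c hκ
  obtain ⟨θ, C1, hθ, hθ1, hC1, hshell⟩ := h m q F d hm hF S hS κ (c - κ * Real.log 2) hκ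
  have hκ0 : 0 < κ := by
    have : (0 : ℝ) ≤ m := Nat.cast_nonneg m
    linarith
  set η : ℝ := (m : ℝ) + 1 - θ with hη
  have hη0 : 0 < η := by
    have : (1 : ℝ) ≤ m := by exact_mod_cast hm
    rw [hη]; linarith
  have h2η : (2 : ℝ) ^ (-η) < 1 := Real.rpow_lt_one_of_one_lt_of_neg one_lt_two (by linarith)
  have h2η0 : 0 < 1 - (2 : ℝ) ^ (-η) := by linarith
  set C3 : ℝ := 3 ^ (m + 2) + C1 / (1 - (2 : ℝ) ^ (-η)) with hC3
  have hC31 : (3 : ℝ) ^ (m + 2) ≤ C3 := by
    rw [hC3]
    have : 0 ≤ C1 / (1 - (2 : ℝ) ^ (-η)) := by positivity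
    linarith
  have hC30 : 0 < C3 := lt_of_lt_of_le (by positivity) hC31
  have hC32 : C1 ≤ C3 * (1 - (2 : ℝ) ^ (-η)) := by
    rw [hC3, add_mul, div_mul_cancel₀ _ h2η0.ne']
    have : 0 ≤ (3 : ℝ) ^ (m + 2) * (1 - (2 : ℝ) ^ (-η)) := by positivity
    linarith
  have hsmall : ∀ B : ℝ, 1 ≤ B → B < 2 → ∀ X : Finset (Fin (m + 2) → ℤ),
      (∀ x ∈ X, (height x : ℝ) ≤ B) → (X.card : ℝ) ≤ C3 * B ^ η := by
    intro B hB1 hB2 X hX
    have h1 : X ⊆ Fintype.piFinset (fun _ : Fin (m + 2) => Finset.Icc (-1 : ℤ) 1) := by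
      intro x hx
      rw [Fintype.mem_piFinset]
      intro i
      rw [Finset.mem_Icc]
      have h2 : (height x : ℝ) < 2 := lt_of_le_of_lt (hX x hx) hB2
      have h3 : height x ≤ 1 := by
        have : height x < 2 := by exact_mod_cast h2
        omega
      have h4 : (x i).natAbs ≤ height x :=
        Finset.le_sup (f := fun i => (x i).natAbs) (Finset.mem_univ i)
      omega
    have h2 := Finset.card_le_card h1
    rw [Fintype.card_piFinset] at h2
    simp only [Int.card_Icc, Finset.prod_const, Finset.card_univ, Fintype.card_fin] at h2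
    have h3 : (X.card : ℝ) ≤ 3 ^ (m + 2) := by
      have h4 : X.card ≤ 3 ^ (m + 2) := by simpa using h2
      exact_mod_cast h4
    have h4 : 1 ≤ B ^ η := Real.one_le_rpow hB1 hη0.le
    calc (X.card : ℝ) ≤ C3 := h3.trans hC31
      _ ≤ C3 * B ^ η := le_mul_of_one_le_right hC30.le h4
  have key : ∀ k : ℕ, ∀ B : ℝ, 1 ≤ B → B < 2 ^ (k + 1) → ∀ X : Finset (Fin (m + 2) → ℤ),
      (∀ x ∈ X, Finset.univ.gcd x = 1 ∧ (height x : ℝ) ≤ B ∧ (∀ j, eval x (F j) ≠ 0) ∧
        κ * Real.log (height x) + c ≤ proximity F d S x) → (X.card : ℝ) ≤ C3 * B ^ η := by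
    intro k
    induction k with
    | zero =>
      intro B hB1 hB2 X hX
      exact hsmall B hB1 (by simpa using hB2) X fun x hx => (hX x hx).2.1
    | succ k ih =>
      intro B hB1 hB2 X hX
      by_cases hB : B < 2
      · exact hsmall B hB1 hB X fun x hx => (hX x hx).2.1
      push Not at hB
      have hB0 : 0 < B := by linarith
      have h1 := ih (B / 2) (by linarith) (by
        rw [div_lt_iff₀ (by norm_num)]
        calc B < 2 ^ (k + 1 + 1) := hB2
          _ = 2 ^ (k + 1) * 2 := by rw [pow_succ]) (X.filter (fun x => (height x : ℝ) ≤ B / 2))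
        (fun x hx => by
          obtain ⟨hx1, hx2⟩ := Finset.mem_filter.mp hx
          obtain ⟨h1, _, h3, h4⟩ := hX x hx1
          exact ⟨h1, hx2, h3, h4⟩)
      have h2 := hshell B hB1 (X.filter (fun x => ¬ (height x : ℝ) ≤ B / 2)) (fun x hx => by
        obtain ⟨hx1, hx2⟩ := Finset.mem_filter.mp hx
        obtain ⟨h1, h2, h3, h4⟩ := hX x hx1
        push Not at hx2
        have hH0 : (0 : ℝ) < height x := by
          have := one_le_height x h1
          exact_mod_cast this
        refine ⟨h1, h3, fun i => (abs_le_height x i).trans h2, ?_, ?_⟩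
        · obtain ⟨i, hi⟩ := exists_height x
          exact ⟨i, hx2.le.trans hi⟩
        · have e1 : Real.log B ≤ Real.log (height x) + Real.log 2 := by
            rw [← Real.log_mul hH0.ne' (by norm_num)]
            exact Real.log_le_log hB0 (by linarith)
          have e2 : κ * Real.log B + (c - κ * Real.log 2) ≤ proximity F d S x := by
            have := mul_le_mul_of_nonneg_left e1 hκ0.le
            linarith
          refine e2.trans ?_
          unfold proximity
          exact Finset.sum_le_sum fun j _ => prox_le hS hH0 h2 (d j) (h3 j))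
      have h3 := Finset.card_filter_add_card_filter_not (s := X)
        (fun x => (height x : ℝ) ≤ B / 2)
      have h4 : (X.card : ℝ) = ((X.filter (fun x => (height x : ℝ) ≤ B / 2)).card : ℝ) +
          ((X.filter (fun x => ¬ (height x : ℝ) ≤ B / 2)).card : ℝ) := by
        exact_mod_cast h3.symm
      have h5 : (B / 2) ^ η = B ^ η * (2 : ℝ) ^ (-η) := by
        rw [Real.div_rpow hB0.le (by norm_num), Real.rpow_neg (by norm_num), div_eq_mul_inv]
      rw [h4]
      rw [h5] at h1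
      have h6 : 0 < B ^ η := by positivity
      have h7 := mul_le_mul_of_nonneg_right hC32 h6.le
      calc ((X.filter (fun x => (height x : ℝ) ≤ B / 2)).card : ℝ) +
          ((X.filter (fun x => ¬ (height x : ℝ) ≤ B / 2)).card : ℝ) ≤
            C3 * (B ^ η * (2 : ℝ) ^ (-η)) + C1 * B ^ η := add_le_add h1 h2
        _ ≤ C3 * (B ^ η * (2 : ℝ) ^ (-η)) + C3 * (1 - (2 : ℝ) ^ (-η)) * B ^ η := by linarith
        _ = C3 * B ^ η := by ring
  refine ⟨θ, C3, hθ, hC30, fun B hB => ?_⟩
  have hB0 : 0 < B := by linarith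
  set V : Set (Fin (m + 2) → ℤ) := {x : Fin (m + 2) → ℤ | Finset.univ.gcd x = 1 ∧
      (height x : ℝ) ≤ B ∧ (∀ j, eval x (F j) ≠ 0) ∧
        κ * Real.log (height x) + c ≤ proximity F d S x} with hV
  have hfin : V.Finite := by
    apply (Set.finite_Icc (fun _ : Fin (m + 2) => -(⌊B⌋₊ : ℤ)) (fun _ => (⌊B⌋₊ : ℤ))).subset
    intro x hx
    have h1 : height x ≤ ⌊B⌋₊ := Nat.le_floor hx.2.1
    have h2 : ∀ i, (x i).natAbs ≤ ⌊B⌋₊ := fun i =>
      (Finset.le_sup (f := fun i => (x i).natAbs) (Finset.mem_univ i)).trans h1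
    rw [Set.mem_Icc]
    constructor
    · intro i
      have := h2 i
      show -(⌊B⌋₊ : ℤ) ≤ x i
      omega
    · intro i
      have := h2 i
      show x i ≤ (⌊B⌋₊ : ℤ)
      omega
  refine ⟨hfin, ?_⟩
  rw [Set.ncard_eq_toFinset_card V hfin]
  obtain ⟨k, hk⟩ := pow_unbounded_of_one_lt B (one_lt_two (α := ℝ))
  exact key k B hB (hk.trans_le (pow_le_pow_right₀ one_le_two (by omega))) hfin.toFinset
    (fun x hx => (Set.Finite.mem_toFinset hfin).mp hx)

end Pool.Agent.K1H52.VX
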